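import Pool.Agent.H586.AF.D

/-!
# Project AG, task PB: the Gibbs measure of the energy at `θ = 0` for a closed subgroup of `U(N)`
-/

set_option autoImplicit false
set_option linter.unusedVariables false

open MeasureTheory Matrix Finset Filter Topology
open scoped Matrix.Norms.Frobenius

namespace Pool.Agent.H323.AG

open Pool.Agent.H586.AF Pool.Agent.H586.AF.GG

/-- the unitary group is compact -/
theorem pb_compactU (N : ℕ) : CompactSpace (UU N) := by
  have h1 : IsClosed ((Matrix.unitaryGroup (Fin N) ℂ : Submonoid (Mt N)) : Set (Mt N)) := by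
    have h : ((Matrix.unitaryGroup (Fin N) ℂ : Submonoid (Mt N)) : Set (Mt N)) =
        {A : Mt N | A * star A = 1} := by
      ext A
      exact Matrix.mem_unitaryGroup_iff
    rw [h]
    exact isClosed_eq (by fun_prop) continuous_const
  have h2 : IsCompact (Set.univ.pi fun _ : Fin N => Set.univ.pi fun _ : Fin N =>
      Metric.closedBall (0 : ℂ) 1) :=
    isCompact_univ_pi fun _ => isCompact_univ_pi fun _ => isCompact_closedBall _ _
  have h3 : IsCompact ((Matrix.unitaryGroup (Fin N) ℂ : Submonoid (Mt N)) : Set (Mt N)) := by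
    refine IsCompact.of_isClosed_subset (s := Set.univ.pi fun _ : Fin N =>
      Set.univ.pi fun _ : Fin N => Metric.closedBall (0 : ℂ) 1) h2 h1 ?_
    intro A hA i _ j _
    rw [mem_closedBall_zero_iff]
    exact entry_norm_bound_of_unitary hA i j
  exact isCompact_iff_compactSpace.1 h3

theorem pb_compact {N : ℕ} {G : Subgroup (UU N)} (hG : IsClosed (G : Set (UU N))) :
    CompactSpace G := by
  have := pb_compactU N
  exact isCompact_iff_compactSpace.1 hG.isCompact

theorem pb_second {N : ℕ} (G : Subgroup (UU N)) : SecondCountableTopology G := by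
  have h1 : SecondCountableTopology (Mt N) :=
    inferInstanceAs (SecondCountableTopology (Fin N → Fin N → ℂ))
  have h2 : SecondCountableTopology (UU N) :=
    (Topology.IsEmbedding.subtypeVal (p := fun A : Mt N =>
      A ∈ (Matrix.unitaryGroup (Fin N) ℂ : Submonoid (Mt N)))).secondCountableTopology
  exact (Topology.IsEmbedding.subtypeVal (p := fun g : UU N => g ∈ G)).secondCountableTopology

/-- the abstract statement -/
theorem pb_abs {Ω : Type} [MeasurableSpace Ω] (P : Measure Ω) [IsProbabilityMeasure P]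
    (g : Ω → ℝ) (hg : Measurable g) (hi : Integrable (fun ω => Real.exp (g ω)) P) :
    IsProbabilityMeasure (P.withDensity fun ω => ENNReal.ofReal (Real.exp (g ω) /
      ∫ τ, Real.exp (g τ) ∂P)) ∧ (0 < ∫ ω, Real.exp (g ω) ∂P) ∧
    ∀ F : Ω → ℝ, ∫ ω, F ω ∂(P.withDensity fun ω => ENNReal.ofReal (Real.exp (g ω) /
      ∫ τ, Real.exp (g τ) ∂P)) = (∫ ω, F ω * Real.exp (g ω) ∂P) / ∫ ω, Real.exp (g ω) ∂P := by
  have hZ : 0 < ∫ ω, Real.exp (g ω) ∂P := integral_exp_pos hi
  obtain ⟨Z, hZe⟩ : ∃ Z : ℝ, Z = ∫ ω, Real.exp (g ω) ∂P := ⟨_, rfl⟩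
  rw [← hZe] at hZ ⊢
  have hm : Measurable (fun ω => ENNReal.ofReal (Real.exp (g ω) / Z)) :=
    ((Real.measurable_exp.comp hg).div_const Z).ennreal_ofReal
  refine ⟨⟨?_⟩, hZ, fun F => ?_⟩
  · rw [withDensity_apply _ MeasurableSet.univ, Measure.restrict_univ,
      ← ofReal_integral_eq_lintegral_ofReal (hi.div_const Z)
        (Filter.Eventually.of_forall fun ω => div_nonneg (Real.exp_pos _).le hZ.le),
      integral_div, ← hZe, div_self hZ.ne', ENNReal.ofReal_one]
  · rw [integral_withDensity_eq_integral_toReal_smul hm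
      (Filter.Eventually.of_forall fun ω => ENNReal.ofReal_lt_top), ← integral_div]
    refine integral_congr_ae (Filter.Eventually.of_forall fun ω => ?_)
    simp only [smul_eq_mul]
    rw [ENNReal.toReal_ofReal (div_nonneg (Real.exp_pos _).le hZ.le)]
    ring

theorem tpb (hEB : GG.S_EB) : GG.S_PB := by
  intro N G _ _ hG μ _ _ L hL β
  have := pb_compact hG
  have := pb_second G
  have hc : Continuous (fun σ : IH L → G => GG.en 0 L 0 σ) := (hEB L hL).2.2.1
  have hc2 : Continuous (fun σ : IH L → G => -(β * GG.en 0 L 0 σ)) := (hc.const_mul β).neg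
  have hc3 : Continuous (fun σ : IH L → G => Real.exp (-(β * GG.en 0 L 0 σ))) :=
    Real.continuous_exp.comp hc2
  have hi : Integrable (fun σ : IH L → G => Real.exp (-(β * GG.en 0 L 0 σ)))
      (Measure.pi fun _ => μ) :=
    hc3.integrable_of_hasCompactSupport (HasCompactSupport.of_compactSpace _)
  exact pb_abs (Measure.pi fun _ => μ) (fun σ : IH L → G => -(β * GG.en 0 L 0 σ))
    hc2.measurable hi

end Pool.Agent.H323.AG
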